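import Pool.Agent.Lib.MP_226ef1_lc.U.IfaceC
import Pool.Agent.Lib.MP_226ef1_lc.U.Tools

/-!
# Module MAINH: direction (H) of the main reduction (Paper.md, 4.3)
-/

set_option autoImplicit false

namespace Pool.Agent.Lib.MP_226ef1_lc.U.H25

universe u v

section rel
variable {J : TS} {V : Type} {ty : V → V → ℕ}

theorem legit_infix {s w : List (Option V)} (h : Legit J ty w) (hs : s <:+: w) :
    Legit J ty s :=
  ⟨hs.length_le.trans h.1, fun x y k hk => h.2 x y k (hk.trans hs)⟩

theorem rel_symm {v w : List (Option V)} (h : Rel J ty v w) : Rel J ty w v := by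
  rcases h with rfl | ⟨h1, h2, h3⟩
  · exact Or.inl rfl
  · exact Or.inr ⟨h2, h1, h3.symm⟩

theorem rel_trans {v w z : List (Option V)} (h : Rel J ty v w) (h' : Rel J ty w z) :
    Rel J ty v z := by
  rcases h with rfl | ⟨h1, h2, h3⟩
  · exact h'
  · rcases h' with rfl | ⟨h4, h5, h6⟩
    · exact Or.inr ⟨h1, h2, h3⟩
    · exact Or.inr ⟨h1, h5, h3.trans h6⟩

theorem rel_append {a a' b b' : List (Option V)} (h : Rel J ty a a') (h' : Rel J ty b b') :
    Rel J ty (a ++ b) (a' ++ b') := by
  have hna : ∀ s t : List (Option V), ¬ Legit J ty s → ¬ Legit J ty (s ++ t) :=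
    fun s t hs hst => hs (legit_infix hst ⟨[], t, by simp⟩)
  have hnb : ∀ s t : List (Option V), ¬ Legit J ty t → ¬ Legit J ty (s ++ t) :=
    fun s t hs hst => hs (legit_infix hst ⟨s, [], by simp⟩)
  rcases h with rfl | ⟨h1, h2, h3⟩
  · rcases h' with rfl | ⟨h4, h5, h6⟩
    · exact Or.inl rfl
    · exact Or.inr ⟨hnb _ _ h4, hnb _ _ h5, by rw [par_append, par_append, h6]⟩
  · rcases h' with rfl | ⟨h4, h5, h6⟩
    · exact Or.inr ⟨hna _ _ h1, hna _ _ h2, by rw [par_append, par_append, h3]⟩
    · exact Or.inr ⟨hna _ _ h1, hna _ _ h2, by rw [par_append, par_append, h3, h6]⟩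

end rel

theorem toL_mul {G : Type} (p q : FreeSemigroup G) : toL (p * q) = toL p ++ toL q := rfl

theorem toL_ne {G : Type} (p : FreeSemigroup G) : toL p ≠ [] := by
  simp [toL]

/-- the congruence that defines the semigroups `T_X` -/
def relCon (J : TS) {V : Type} (ty : V → V → ℕ) {G : Type} (ι : G → Option V) :
    Con (FreeSemigroup G) where
  r p q := Rel J ty ((toL p).map ι) ((toL q).map ι)
  iseqv := ⟨fun _ => Or.inl rfl, fun h => rel_symm h, fun h h' => rel_trans h h'⟩
  mul' := by
    intro a b c d h h'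
    rw [toL_mul, toL_mul, List.map_append, List.map_append]
    exact rel_append h h'

/-- the semigroup `T_X` -/
abbrev TA (J : TS) {V : Type} (ty : V → V → ℕ) {G : Type} (ι : G → Option V) : Type u :=
  ULift.{u} (relCon J ty ι).Quotient

section TA
variable (J : TS) {V : Type} (ty : V → V → ℕ) {G : Type} (ι : G → Option V)

/-- the class of a word -/
def cl (p : FreeSemigroup G) : TA.{u} J ty ι :=
  ULift.up ((p : FreeSemigroup G) : (relCon J ty ι).Quotient)

/-- the generators -/
def gn (g : G) : TA.{u} J ty ι := cl J ty ι (FreeSemigroup.of g)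

theorem cl_mul (p q : FreeSemigroup G) :
    (cl J ty ι (p * q) : TA.{u} J ty ι) = cl J ty ι p * cl J ty ι q := rfl

theorem cl_eq (p q : FreeSemigroup G) : (cl J ty ι p : TA.{u} J ty ι) = cl J ty ι q ↔
    Rel J ty ((toL p).map ι) ((toL q).map ι) := by
  constructor
  · intro h
    have h1 := congrArg ULift.down h
    exact (Con.eq (relCon J ty ι)).1 h1
  · intro h
    exact congrArg ULift.up ((Con.eq (relCon J ty ι)).2 h)

theorem prd_gn (l : List G) : ∀ g : G, prd ((g :: l).map (gn.{u} J ty ι)) =
    ((cl J ty ι ⟨g, l⟩ : TA.{u} J ty ι) : WithOne (TA.{u} J ty ι)) := by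
  induction l with
  | nil =>
    intro g
    simp only [List.map_cons, List.map_nil, prd_cons, prd_nil, mul_one]
    rfl
  | cons h l ih =>
    intro g
    rw [List.map_cons, prd_cons, ih h]
    have h1 : (⟨g, h :: l⟩ : FreeSemigroup G) = FreeSemigroup.of g * ⟨h, l⟩ := rfl
    rw [h1, cl_mul, WithOne.coe_mul]
    rfl

theorem prd_gn_toL (p : FreeSemigroup G) : prd ((toL p).map (gn.{u} J ty ι)) =
    ((cl J ty ι p : TA.{u} J ty ι) : WithOne (TA.{u} J ty ι)) :=
  prd_gn J ty ι p.tail p.head

theorem exists_toL {w : List G} (hw : w ≠ []) : ∃ p : FreeSemigroup G, toL p = w := by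
  rcases w with _ | ⟨g, l⟩
  · exact absurd rfl hw
  · exact ⟨⟨g, l⟩, rfl⟩

theorem prd_gn_eq {v w : List G} (hv : v ≠ []) (hw : w ≠ []) :
    prd (v.map (gn.{u} J ty ι)) = prd (w.map (gn.{u} J ty ι)) ↔
      Rel J ty (v.map ι) (w.map ι) := by
  obtain ⟨p, rfl⟩ := exists_toL hv
  obtain ⟨q, rfl⟩ := exists_toL hw
  rw [prd_gn_toL, prd_gn_toL, WithOne.coe_inj, cl_eq]

theorem exists_word (t : TA.{u} J ty ι) :
    ∃ w : List G, w ≠ [] ∧ prd (w.map (gn.{u} J ty ι)) = (t : WithOne (TA.{u} J ty ι)) := by
  obtain ⟨t⟩ := t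
  obtain ⟨p, rfl⟩ := Quotient.exists_rep t
  exact ⟨toL p, toL_ne p, prd_gn_toL J ty ι p⟩

end TA

/-- evaluation of a homomorphism on words -/
theorem eval_word {T : Type u} [Semigroup T] {G : Type v} (f : G → T) (φ : Word →ₙ* T)
    (w : ℕ → List G) (p : Word) (h : ∀ i ∈ toL p, prd ((w i).map f) =
      ((φ (FreeSemigroup.of i) : T) : WithOne T)) :
    prd (((toL p).flatMap w).map f) = ((φ p : T) : WithOne T) := by
  obtain ⟨a, l⟩ := p
  induction l generalizing a with
  | nil =>
    have h1 := h a (by simp [toL])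
    simp only [toL, List.flatMap_cons, List.flatMap_nil, List.append_nil]
    rw [h1]
    rfl
  | cons b l ih =>
    have h1 := h a (by simp [toL])
    have h2 := ih b fun i hi => h i (by
      simp only [toL] at hi ⊢
      exact List.mem_cons_of_mem _ hi)
    have h3 : (⟨a, b :: l⟩ : Word) = FreeSemigroup.of a * ⟨b, l⟩ := rfl
    have h4 : toL (⟨a, b :: l⟩ : Word) = a :: toL (⟨b, l⟩ : Word) := rfl
    rw [h4, List.flatMap_cons, List.map_append, prd_append, h1, h2, h3, map_mul,
      WithOne.coe_mul]

/-- a finite set of pairs uses finitely many variables -/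
theorem exists_bound (B : Set (Word × Finset Word)) (hB : B.Finite) :
    ∃ n : ℕ, ∀ b ∈ B, (∀ i ∈ toL b.1, i < n) ∧ ∀ v ∈ b.2, ∀ i ∈ toL v, i < n := by
  classical
  have hS : (⋃ b ∈ B, (insert b.1 b.2 : Finset Word) : Set Word).Finite :=
    hB.biUnion fun b _ => Finset.finite_toSet _
  obtain ⟨N, hN⟩ := (hS.image fun w : Word => (toL w).sum).bddAbove
  refine ⟨N + 1, fun b hb => ?_⟩
  have key : ∀ w ∈ (insert b.1 b.2 : Finset Word), ∀ i ∈ toL w, i < N + 1 := by
    intro w hw i hi
    have h1 : (toL w).sum ≤ N := hN ⟨w, Set.mem_biUnion hb hw, rfl⟩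
    have h2 : i ≤ (toL w).sum := List.single_le_sum (by simp) i hi
    omega
  exact ⟨key b.1 (Finset.mem_insert_self _ _), fun v hv => key v (Finset.mem_insert_of_mem hv)⟩

theorem not_legit_replicate {J : TS} {V : Type} {ty : V → V → ℕ} (x : V) (n : ℕ) (h : J.L < n) :
    ¬ Legit J ty (List.replicate n (some x)) := by
  intro hl
  have := hl.1
  rw [List.length_replicate] at this
  omega

theorem par_replicate {V : Type} (x : V) (n : ℕ) :
    par (fun a : Option V => a ≠ none) (List.replicate n (some x)) = n % 2 := by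
  induction n with
  | zero => simp
  | succ n ih =>
    rw [List.replicate_succ, par_cons_pos (by simp), ih]
    omega

/-- representatives of the classes -/
theorem exists_rep (J : TS) {V : Type} (ty : V → V → ℕ) (x : V) (w : List (Option V))
    (hw : w ≠ []) : ∃ w' : List (Option V), w' ≠ [] ∧ Rel J ty w' w ∧
      (w'.length ≤ J.L ∨ ∀ g ∈ w', g = some x) := by
  by_cases hl : Legit J ty w
  · exact ⟨w, hw, Or.inl rfl, Or.inl hl.1⟩
  · have hp := par_lt (p := fun a : Option V => a ≠ none) w
    refine ⟨List.replicate (2 * J.L + 2 + par (fun a : Option V => a ≠ none) w) (some x), ?_,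
      Or.inr ⟨not_legit_replicate x _ (by omega), hl, ?_⟩, Or.inr fun g hg => ?_⟩
    · intro h0
      have := congrArg List.length h0
      rw [List.length_replicate, List.length_nil] at this
      omega
    · rw [par_replicate]
      omega
    · exact List.eq_of_mem_replicate hg

theorem mainh (h1 : TaNotStatement) (h2 : TaSubStatement) (h3 : IvaStatement.{u})
    (h4 : IvbStatement.{u, 0}) : MainHStatement.{u} := by
  classical
  intro J hJ h hex hFA
  obtain ⟨B, hBfin, hB⟩ := hFA
  obtain ⟨n, hn⟩ := exists_bound B hBfin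
  obtain ⟨m, hm, ty, hty, hirr⟩ := hex (n * J.L + 1)
  have hm0 : 0 < m := by omega
  obtain ⟨u, hu, hsep⟩ := h1 J hJ m hm0 ty hty
  let x0 : Fin m := ⟨0, hm0⟩
  -- `T_A` satisfies all the inclusions in `B`
  have hTA : InGenerated (tabs J) h (TA.{u} J ty (fun g : Option (Fin m) => g)) := by
    rw [hB]
    intro b hb φ
    -- representatives
    have hrep : ∀ i : ℕ, ∃ w : List (Option (Fin m)), w ≠ [] ∧
        prd (w.map (gn.{u} J ty (fun g : Option (Fin m) => g))) =
          ((φ (FreeSemigroup.of i) : TA.{u} J ty (fun g : Option (Fin m) => g)) :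
            WithOne (TA.{u} J ty (fun g : Option (Fin m) => g))) ∧
        (w.length ≤ J.L ∨ ∀ g ∈ w, g = some x0) := by
      intro i
      obtain ⟨w, hw, hw1⟩ := exists_word.{u} J ty (fun g : Option (Fin m) => g)
        (φ (FreeSemigroup.of i))
      obtain ⟨w', hw', hrel, hlen⟩ := exists_rep J ty x0 w hw
      refine ⟨w', hw', ?_, hlen⟩
      rw [← hw1, prd_gn_eq J ty _ hw' hw]
      simpa using hrel
    choose w hw0 hw1 hw2 using hrep
    -- the set of mains
    let A : ℕ → Finset (Fin m) := fun i =>
      if (w i).length ≤ J.L then ((w i).filterMap id).toFinset else ∅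
    have hA : ∀ i, (A i).card ≤ J.L := by
      intro i
      simp only [A]
      split_ifs with hi
      · exact (List.toFinset_card_le _).trans ((List.length_filterMap_le _ _).trans hi)
      · simp
    let X : Finset (Fin m) := insert x0 ((Finset.range n).biUnion A)
    have hXc : X.card ≤ n * J.L + 1 := by
      refine (Finset.card_insert_le _ _).trans ?_
      have := Finset.card_biUnion_le_card_mul (Finset.range n) A J.L fun i _ => hA i
      rw [Finset.card_range] at this
      omega
    have hXne : (X : Set (Fin m)) ≠ Set.univ := by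
      intro hX
      have h5 : X = Finset.univ := by
        ext x
        have : x ∈ (X : Set (Fin m)) := by rw [hX]; exact Set.mem_univ x
        simpa using this
      rw [h5, Finset.card_univ, Fintype.card_fin] at hXc
      omega
    have hx0 : x0 ∈ X := Finset.mem_insert_self _ _
    -- the semigroup `T_X`
    let G : Type := {g : Option (Fin m) // g ∈ Lx (X : Set (Fin m))}
    let ι : G → Option (Fin m) := fun g => g.1
    have hTX : InGenerated (tabs J) h (TA.{u} J ty ι) := by
      refine h4 J hJ h _ G (gn.{u} J ty ι) (exists_word.{u} J ty ι) fun s hs => ?_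
      obtain ⟨τ, hτ, σ, hσ, hsp⟩ := h2 J hJ m ty hty hirr (X : Set (Fin m)) hXne (s.map ι)
        (by simpa using hs) (by
          intro g hg
          obtain ⟨g', _, rfl⟩ := List.mem_map.1 hg
          exact g'.2)
      refine ⟨τ, hτ, fun g => σ (ι g), fun g => hσ _, fun v hv _ hvs => ?_⟩
      rw [prd_gn_eq J ty ι hv hs]
      refine hsp (v.map ι) (by simpa using hv) (by
        intro g hg
        obtain ⟨g', _, rfl⟩ := List.mem_map.1 hg
        exact g'.2) ?_
      rw [List.flatMap_map, List.flatMap_map]
      exact hvs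
    -- words over `G`
    have hlift : ∀ i : ℕ, ∃ w' : List G, w' ≠ [] ∧ (i < n → w'.map ι = w i) := by
      intro i
      by_cases hi : i < n
      · have hmem : ∀ g ∈ w i, g ∈ Lx (X : Set (Fin m)) := by
          intro g hg x hx
          rcases hw2 i with hl | hl
          · have : x ∈ A i := by
              simp only [A, hl, if_true, List.mem_toFinset, List.mem_filterMap, id]
              exact ⟨g, hg, hx⟩
            exact Finset.mem_coe.2 (Finset.mem_insert_of_mem
              (Finset.mem_biUnion.2 ⟨i, Finset.mem_range.2 hi, this⟩))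
          · have := hl g hg
            rw [this] at hx
            have hx' : x0 = x := Option.some.inj hx
            rw [← hx']
            exact Finset.mem_coe.2 hx0
        refine ⟨(w i).attachWith _ hmem, ?_, fun _ => ?_⟩
        · intro h0
          have := congrArg List.length h0
          rw [List.length_attachWith, List.length_nil] at this
          exact hw0 i (List.length_eq_zero_iff.1 this)
        · simp only [ι]
          exact List.attachWith_map_subtype_val _
      · exact ⟨[⟨none, fun x hx => by simp at hx⟩], by simp, fun h => absurd h hi⟩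
    choose w' hw'0 hw'1 using hlift
    have ht : ∀ i : ℕ, ∃ t : TA.{u} J ty ι, prd ((w' i).map (gn.{u} J ty ι)) =
        ((t : TA.{u} J ty ι) : WithOne (TA.{u} J ty ι)) := by
      intro i
      obtain ⟨p, hp⟩ := exists_toL (hw'0 i)
      exact ⟨cl J ty ι p, by rw [← hp, prd_gn_toL]⟩
    choose t ht using ht
    let φ' : Word →ₙ* TA.{u} J ty ι := FreeSemigroup.lift t
    have hφ' : ∀ p : Word, prd (((toL p).flatMap w').map (gn.{u} J ty ι)) =
        ((φ' p : TA.{u} J ty ι) : WithOne (TA.{u} J ty ι)) := by
      intro p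
      refine eval_word (gn.{u} J ty ι) φ' w' p fun i _ => ?_
      rw [ht i]
      congr 1
    have hφ : ∀ p : Word, (∀ i ∈ toL p, i < n) → prd (((toL p).flatMap w).map
        (gn.{u} J ty (fun g : Option (Fin m) => g))) =
        ((φ p : TA.{u} J ty (fun g : Option (Fin m) => g)) :
          WithOne (TA.{u} J ty (fun g : Option (Fin m) => g))) :=
      fun p _ => eval_word _ φ w p fun i _ => hw1 i
    have hww : ∀ l : List ℕ, (∀ i ∈ l, i < n) → (l.flatMap w').map ι = l.flatMap w := by
      intro l hl
      induction l with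
      | nil => rfl
      | cons i l ih =>
        rw [List.flatMap_cons, List.flatMap_cons, List.map_append, hw'1 i (hl i (by simp)),
          ih fun j hj => hl j (by simp [hj])]
    have hne' : ∀ p : Word, (toL p).flatMap w' ≠ [] := by
      intro p h0
      have h5 : (w' p.head) = [] := by
        have : (toL p).flatMap w' = w' p.head ++ p.tail.flatMap w' := rfl
        rw [this] at h0
        exact (List.append_eq_nil_iff.1 h0).1
      exact hw'0 _ h5
    have hne : ∀ p : Word, (toL p).flatMap w ≠ [] := by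
      intro p h0
      have h5 : (w p.head) = [] := by
        have : (toL p).flatMap w = w p.head ++ p.tail.flatMap w := rfl
        rw [this] at h0
        exact (List.append_eq_nil_iff.1 h0).1
      exact hw0 _ h5
    obtain ⟨v, hv, hbv⟩ := (hB (TA.{u} J ty ι)).1 hTX b hb φ'
    refine ⟨v, hv, ?_⟩
    have hbn := hn b hb
    have e1 : prd (((toL b.1).flatMap w').map (gn.{u} J ty ι)) =
        prd (((toL v).flatMap w').map (gn.{u} J ty ι)) := by
      rw [hφ' b.1, hφ' v, hbv]
    rw [prd_gn_eq J ty ι (hne' _) (hne' _), hww _ hbn.1, hww _ (hbn.2 v hv)] at e1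
    have e2 : prd (((toL b.1).flatMap w).map (gn.{u} J ty (fun g : Option (Fin m) => g))) =
        prd (((toL v).flatMap w).map (gn.{u} J ty (fun g : Option (Fin m) => g))) := by
      rw [prd_gn_eq J ty _ (hne _) (hne _)]
      simpa using e1
    rw [hφ b.1 hbn.1, hφ v (hbn.2 v hv)] at e2
    exact WithOne.coe_inj.1 e2
  -- hence every word is separated
  obtain ⟨τ, hτ, σ, hσ, hs⟩ := h3 J hJ h _ hTA (Option (Fin m))
    (gn.{u} J ty (fun g : Option (Fin m) => g)) u hu
  refine hsep ⟨τ, hτ, σ, hσ, fun v hv hvY hvu => ?_⟩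
  have h5 := hs v hv hvY hvu
  rw [prd_gn_eq J ty _ hv hu] at h5
  simpa using h5

end Pool.Agent.Lib.MP_226ef1_lc.U.H25
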