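import Pool.Agent.Lib.MP_226ef1_lc.U.IfaceC
import Pool.Agent.Lib.MP_226ef1_lc.U.H36.Coded

/-!
# Module WORDSC: the tables of the template semigroups are primitive recursive
-/

set_option autoImplicit false

namespace Pool.Agent.Lib.MP_226ef1_lc.U.H25

open Pool.Agent.Lib.MP_226ef1_lc.U.H36 (pr_filter pr_any pr_all pr_mem sum_primrec)

theorem allWords_primrec : Primrec₂ allWords := by
  have h' : allWords = fun cb k => Nat.rec [[]] (fun _ ws => [] :: ws.flatMap fun w =>
      (List.range cb).map fun c => c :: w) k := by
    funext cb k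
    induction k with
    | zero => rfl
    | succ k ih => simp only [allWords]; rw [ih]
  rw [h']
  refine Primrec.nat_rec (f := fun _ : ℕ => [([] : List ℕ)])
    (g := fun cb (x : ℕ × List (List ℕ)) => [] :: x.2.flatMap fun w =>
      (List.range cb).map fun c => c :: w) (Primrec.const [[]]) ?_
  refine Primrec.list_cons.comp (Primrec.const []) ?_
  refine Primrec.list_flatMap (Primrec.snd.comp Primrec.snd) ?_
  refine Primrec.list_map (Primrec.list_range.comp (Primrec.fst.comp Primrec.fst)) ?_
  exact Primrec.list_cons.comp Primrec.snd (Primrec.snd.comp Primrec.fst)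

/-- boolean test: a factor of `w` is bad -/
def facB (bad : ℕ → List ℕ → Bool) (n : ℕ) (w : List ℕ) : Bool :=
  (List.range (w.length + 1)).any fun i => (List.range (w.length + 1)).any fun j =>
    bad n ((w.drop i).take j)

theorem facB_iff {bad : ℕ → List ℕ → Bool} {n : ℕ} {w : List ℕ} :
    facB bad n w = true ↔ ∃ s, s <:+: w ∧ bad n s = true := by
  simp only [facB, List.any_eq_true, List.mem_range]
  constructor
  · rintro ⟨i, -, j, -, h⟩
    exact ⟨_, (List.take_prefix _ _).isInfix.trans (List.drop_suffix _ _).isInfix, h⟩
  · rintro ⟨s, ⟨a, b, rfl⟩, h⟩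
    refine ⟨a.length, by simp only [List.length_append]; omega, s.length,
      by simp only [List.length_append]; omega, ?_⟩
    have h1 : (a ++ s ++ b).drop a.length = s ++ b := by
      rw [List.append_assoc, List.drop_left]
    rw [h1, List.take_left]
    exact h

/-- boolean test for free words -/
def freeB (len : ℕ → ℕ) (cols : ℕ → ℕ → Bool) (bad : ℕ → List ℕ → Bool) (n : ℕ)
    (w : List ℕ) : Bool :=
  (decide (0 < w.length) && decide (w.length ≤ len n)) && (w.all (cols n) && !facB bad n w)

/-- the normal form -/
def nfB (len : ℕ → ℕ) (cols : ℕ → ℕ → Bool) (seeds : List ℕ) (bad : ℕ → List ℕ → Bool) (n : ℕ)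
    (w : List ℕ) : List ℕ :=
  bif decide (0 ∈ w) then [0] else bif freeB len cols bad n w then w else
    (2 - (w.sum + (seeds.filter fun c => decide (c ∈ w)).sum) % 2) ::
      (seeds.filter fun c => decide (c ∈ w))

theorem facB_primrec {bad : ℕ → List ℕ → Bool} (hb : Primrec₂ bad) : Primrec₂ (facB bad) := by
  unfold facB
  have hl : Primrec fun p : ℕ × List ℕ => List.range (p.2.length + 1) :=
    Primrec.list_range.comp (Primrec.succ.comp (Primrec.list_length.comp Primrec.snd))
  refine pr_any hl ?_
  refine pr_any (hl.comp Primrec.fst) ?_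
  refine hb.comp (Primrec.fst.comp (Primrec.fst.comp Primrec.fst)) ?_
  exact Primrec.list_take.comp Primrec.snd
    (Primrec.list_drop.comp (Primrec.snd.comp Primrec.fst)
      (Primrec.snd.comp (Primrec.fst.comp Primrec.fst)))

theorem freeB_primrec {len : ℕ → ℕ} {cols : ℕ → ℕ → Bool} {bad : ℕ → List ℕ → Bool}
    (hl : Primrec len) (hc : Primrec₂ cols) (hb : Primrec₂ bad) :
    Primrec₂ (freeB len cols bad) := by
  unfold freeB
  refine Primrec.and.comp (Primrec.and.comp ?_ ?_) (Primrec.and.comp ?_ ?_)
  · exact Primrec.nat_lt.decide.comp (Primrec.const 0) (Primrec.list_length.comp Primrec.snd)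
  · exact Primrec.nat_le.decide.comp (Primrec.list_length.comp Primrec.snd)
      (hl.comp Primrec.fst)
  · refine pr_all Primrec.snd ?_
    exact hc.comp (Primrec.fst.comp Primrec.fst) Primrec.snd
  · exact Primrec.not.comp ((facB_primrec hb).comp Primrec.fst Primrec.snd)

theorem nfB_primrec {len : ℕ → ℕ} {cols : ℕ → ℕ → Bool} (seeds : List ℕ)
    {bad : ℕ → List ℕ → Bool} (hl : Primrec len) (hc : Primrec₂ cols) (hb : Primrec₂ bad) :
    Primrec₂ (nfB len cols seeds bad) := by
  unfold nfB
  have hs : Primrec fun p : ℕ × List ℕ => seeds.filter fun c => decide (c ∈ p.2) := by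
    refine pr_filter (Primrec.const seeds) ?_
    exact pr_mem Primrec.snd (Primrec.snd.comp Primrec.fst)
  refine Primrec.cond ?_ (Primrec.const [0]) (Primrec.cond ?_ Primrec.snd ?_)
  · exact pr_mem (Primrec.const 0) Primrec.snd
  · exact (freeB_primrec hl hc hb).comp Primrec.fst Primrec.snd
  · refine Primrec.list_cons.comp ?_ hs
    refine Primrec.nat_sub.comp (Primrec.const 2) (Primrec.nat_mod.comp
      (Primrec.nat_add.comp (sum_primrec.comp Primrec.snd) (sum_primrec.comp hs))
      (Primrec.const 2))

theorem nfB_eq (len : ℕ → ℕ) (cols : ℕ → ℕ → Prop) (seeds : List ℕ) (bad : ℕ → List ℕ → Prop)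
    [DecidableRel cols] [DecidableRel bad] (n : ℕ) (w : List ℕ) :
    (⟨len n, cols n, seeds, bad n⟩ : Tm).nf w =
      nfB len (fun n c => decide (cols n c)) seeds (fun n v => decide (bad n v)) n w := by
  have hfree : (⟨len n, cols n, seeds, bad n⟩ : Tm).Free w ↔
      freeB len (fun n c => decide (cols n c)) (fun n v => decide (bad n v)) n w = true := by
    have h1 : facB (fun n v => decide (bad n v)) n w = false ↔ ∀ s, s <:+: w → ¬ bad n s := by
      rw [← Bool.not_eq_true, facB_iff]
      constructor
      · intro h s hs hb
        exact h ⟨s, hs, by simpa using hb⟩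
      · rintro h ⟨s, hs, hb⟩
        exact h s hs (by simpa using hb)
    simp only [Tm.Free, freeB, Bool.and_eq_true, decide_eq_true_eq, List.all_eq_true,
      Bool.not_eq_true', h1, List.length_pos_iff]
    tauto
  unfold Tm.nf nfB
  by_cases h0 : 0 ∈ w
  · simp [h0]
  · by_cases hF : (⟨len n, cols n, seeds, bad n⟩ : Tm).Free w
    · have hF' := hfree.1 hF
      simp [h0, hF, hF']
    · have hF' : freeB len (fun n c => decide (cols n c)) (fun n v => decide (bad n v)) n w =
          false := by
        rw [← Bool.not_eq_true, ← hfree]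
        exact hF
      simp only [h0, hF, hF', if_false, decide_false, cond_false]
      rfl

theorem idxOf_inst (i1 i2 : BEq (List ℕ)) (h1 : @LawfulBEq _ i1) (h2 : @LawfulBEq _ i2) :
    @List.idxOf (List ℕ) i1 = @List.idxOf (List ℕ) i2 := by
  have : i1 = i2 := lawful_beq_subsingleton i1 i2
  subst this
  rfl

theorem wordsc : WordscStatement := by
  classical
  refine ⟨allWords_primrec, ?_⟩
  intro len cols seeds bad cb hl hc hb hcb
  have hc' : Primrec₂ fun n c => decide (cols n c) := hc.decide
  have hb' : Primrec₂ fun n v => decide (bad n v) := hb.decide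
  have hnf := nfB_primrec seeds hl hc' hb'
  have hE : Primrec fun n => (allWords (cb n) (len n)).filter fun w =>
      (decide (0 < w.length) && decide (nfB len (fun n c => decide (cols n c)) seeds
        (fun n v => decide (bad n v)) n w = w)) := by
    refine pr_filter (allWords_primrec.comp hcb hl) ?_
    refine Primrec.and.comp ?_ ?_
    · exact Primrec.nat_lt.decide.comp (Primrec.const 0) (Primrec.list_length.comp Primrec.snd)
    · exact Primrec.eq.decide.comp (hnf.comp Primrec.fst Primrec.snd) Primrec.snd
  have hElts : ∀ n, (⟨len n, cols n, seeds, bad n⟩ : Tm).elts (cb n) =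
      (allWords (cb n) (len n)).filter fun w =>
      (decide (0 < w.length) && decide (nfB len (fun n c => decide (cols n c)) seeds
        (fun n v => decide (bad n v)) n w = w)) := by
    intro n
    unfold Tm.elts
    refine List.filter_congr fun w _ => ?_
    rw [nfB_eq]
    simp [List.length_pos_iff]
  have hT : (fun n => (⟨len n, cols n, seeds, bad n⟩ : Tm).tab (cb n)) = fun n =>
      ((allWords (cb n) (len n)).filter fun w =>
        (decide (0 < w.length) && decide (nfB len (fun n c => decide (cols n c)) seeds
        (fun n v => decide (bad n v)) n w = w))).map fun x =>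
      ((allWords (cb n) (len n)).filter fun w =>
        (decide (0 < w.length) && decide (nfB len (fun n c => decide (cols n c)) seeds
        (fun n v => decide (bad n v)) n w = w))).map fun y =>
      ((allWords (cb n) (len n)).filter fun w =>
        (decide (0 < w.length) && decide (nfB len (fun n c => decide (cols n c)) seeds
        (fun n v => decide (bad n v)) n w = w))).idxOf
        (nfB len (fun n c => decide (cols n c)) seeds (fun n v => decide (bad n v)) n
          (x ++ y)) := by
    funext n
    unfold Tm.tab
    rw [hElts n]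
    simp only [nfB_eq]
  rw [hT]
  refine Primrec.list_map hE ?_
  refine Primrec.list_map (hE.comp Primrec.fst) ?_
  have h1 : Primrec fun p : (ℕ × List ℕ) × List ℕ =>
      nfB len (fun n c => decide (cols n c)) seeds (fun n v => decide (bad n v)) p.1.1
        (p.1.2 ++ p.2) :=
    hnf.comp (Primrec.fst.comp Primrec.fst)
      (Primrec.list_append.comp (Primrec.snd.comp Primrec.fst) Primrec.snd)
  rw [idxOf_inst _ instBEqOfDecidableEq inferInstance inferInstance]
  exact Primrec.list_idxOf.comp h1 (hE.comp (Primrec.fst.comp Primrec.fst))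

end Pool.Agent.Lib.MP_226ef1_lc.U.H25
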